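import Pool.Agent.H31.UF.Targets
import Pool.Agent.H34.LF.LAMP

/-!
# [LAM] the finitary theorem for the Liouville function in residue classes
-/

set_option autoImplicit false

open Finset Filter Topology

namespace Pool.Agent.H39.UF

open Pool.Agent.H91.LF Pool.Agent.H31.UF Pool.Agent.H12.LF Pool.Agent.H34.LF

/-! ### The forms -/

theorem sum_split {k m : ℕ} (f : Fin (k + 1 + m) → ℤ) :
    ∑ l, f l = ∑ i : Fin (k + 1), f (Fin.castAdd m i) + ∑ l : Fin m, f (Fin.natAdd (k + 1) l) :=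
  Fin.sum_univ_add f

theorem lf_cf {k m : ℕ} (b : Fin m → ℤ) (s : Finset (Fin k)) (w : ℤ) (v : Fin m → ℤ) :
    lf (cf b s) (Fin.append (Fin.cons w 0 : Fin (k + 1) → ℤ) v) = w + ∑ l, v l * b l := by
  unfold lf cf
  rw [sum_split]
  simp only [Fin.append_left, Fin.append_right]
  rw [Fin.sum_univ_succ]
  simp only [Fin.cons_zero, Fin.cons_succ, Pi.zero_apply, mul_zero, Finset.sum_const_zero,
    add_zero, one_mul]
  congr 1
  exact Finset.sum_congr rfl fun l _ => mul_comm _ _

/-! ### The averages -/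

theorem ak_neg (k m T x y : ℕ) (f : (Fin (k + 1 + m) → ℤ) → ℝ) :
    ak k m T x y (fun ω => - f ω) = - ak k m T x y f := by
  unfold ak
  rw [← Finset.sum_neg_distrib]
  refine Finset.sum_congr rfl fun t _ => ?_
  rw [← mul_neg, ← Finset.sum_neg_distrib]
  congr 1
  refine Finset.sum_congr rfl fun N _ => ?_
  rw [Finset.sum_neg_distrib, neg_div, mul_neg]

theorem ak_mono (k m T x y : ℕ) {f g : (Fin (k + 1 + m) → ℤ) → ℝ} (h : ∀ ω, f ω ≤ g ω) :
    ak k m T x y f ≤ ak k m T x y g := by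
  unfold ak
  refine Finset.sum_le_sum fun t _ => mul_le_mul_of_nonneg_left ?_ (wt_nonneg t)
  refine Finset.sum_le_sum fun N _ => mul_le_mul_of_nonneg_left ?_ (by positivity)
  exact div_le_div_of_nonneg_right (Finset.sum_le_sum fun z _ => h _) (by positivity)

theorem ak_abs (k m T x y : ℕ) {f : (Fin (k + 1 + m) → ℤ) → ℝ} (h : ∀ ω, |f ω| ≤ 1) :
    |ak k m T x y f| ≤ ak k m T x y (fun _ => 1) := by
  rw [abs_le]
  constructor
  · rw [neg_le, ← ak_neg]
    exact ak_mono k m T x y fun ω => (neg_le_abs _).trans (h ω)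
  · exact ak_mono k m T x y fun ω => (le_abs_self _).trans (h ω)

theorem ak_one_le (hCBC : T_CBC) (k m T x y : ℕ) (hx : 0 < x) :
    ak k m T x y (fun _ => 1) ≤ 3 ^ k * (Wt m T * Ls x y) := by
  unfold ak Wt Ls
  rw [Finset.sum_mul, Finset.mul_sum]
  refine Finset.sum_le_sum fun t _ => ?_
  rw [mul_left_comm]
  refine mul_le_mul_of_nonneg_left ?_ (wt_nonneg t)
  rw [Finset.mul_sum]
  refine Finset.sum_le_sum fun N hN => ?_
  rw [Finset.mem_Icc] at hN
  have hN0 : (0 : ℝ) < N := by exact_mod_cast hx.trans_le hN.1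
  rw [mul_comm ((3 : ℝ) ^ k)]
  refine mul_le_mul_of_nonneg_left ?_ (by positivity)
  rw [div_le_iff₀ (by positivity)]
  have h1 := (hCBC k).2.1 N
  simpa using h1

/-! ### The sequences -/

theorem adm {T x y : ℕ → ℕ} (h : ∀ i, Rg i (T i) (x i) (y i)) : Adm T x y := by
  have hT : Tendsto T atTop atTop := tendsto_atTop_mono (fun i => (h i).1) tendsto_id
  have hx : ∀ i, 0 < x i := fun i => (h i).2.1
  have hlog : Tendsto (fun i => Real.log ((y i : ℝ) / x i)) atTop atTop := by
    refine tendsto_atTop_mono' atTop (f₁ := fun i : ℕ => Real.log i) ?_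
      (Real.tendsto_log_atTop.comp tendsto_natCast_atTop_atTop)
    filter_upwards [eventually_gt_atTop 0] with i hi
    have hx' : (0 : ℝ) < x i := by exact_mod_cast hx i
    refine Real.log_le_log (by exact_mod_cast hi) ?_
    rw [le_div_iff₀ hx']
    exact_mod_cast (h i).2.2.1
  refine ⟨hT, hx, hlog, ?_⟩
  have hup : Tendsto (fun i : ℕ => Real.log 2 * (Real.log ((y i : ℝ) / x i))⁻¹ + (i : ℝ)⁻¹)
      atTop (𝓝 0) := by
    have h1 : Tendsto (fun i : ℕ => Real.log 2 * (Real.log ((y i : ℝ) / x i))⁻¹) atTop (𝓝 0) := by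
      have := (tendsto_inv_atTop_zero.comp hlog).const_mul (Real.log 2)
      rw [mul_zero] at this
      exact this
    have h2 : Tendsto (fun i : ℕ => (i : ℝ)⁻¹) atTop (𝓝 0) :=
      tendsto_inv_atTop_zero.comp tendsto_natCast_atTop_atTop
    have := h1.add h2
    rw [add_zero] at this
    exact this
  refine tendsto_of_tendsto_of_tendsto_of_le_of_le' tendsto_const_nhds hup ?_ ?_
  · filter_upwards [hlog.eventually_gt_atTop 0] with i hi
    have hx' : (0 : ℝ) < x i := by exact_mod_cast hx i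
    refine div_nonneg (Real.log_nonneg ?_) hi.le
    have : (0 : ℝ) ≤ (T i : ℝ) / x i := by positivity
    linarith
  · filter_upwards [hlog.eventually_gt_atTop 0, eventually_gt_atTop 0] with i hi hi0
    have hx' : (0 : ℝ) < x i := by exact_mod_cast hx i
    have hi0' : (0 : ℝ) < i := by exact_mod_cast hi0
    have hT0 : (0 : ℝ) < T i := by exact_mod_cast hi0.trans_le (h i).1
    have hTx : 0 < (T i : ℝ) / x i := div_pos hT0 hx'
    set q := (T i : ℝ) / x i with hq
    set L := Real.log ((y i : ℝ) / x i) with hL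
    have h1 : (i : ℝ) * Real.log q ≤ L := by
      have h2 := Real.log_le_log (pow_pos hTx i) (h i).2.2.2
      rwa [Real.log_pow] at h2
    have h3 : Real.log (1 + q) ≤ Real.log 2 + max 0 (Real.log q) := by
      rcases le_total q 1 with hq1 | hq1
      · have h4 : Real.log (1 + q) ≤ Real.log 2 := Real.log_le_log (by linarith) (by linarith)
        have := le_max_left 0 (Real.log q)
        linarith
      · have h4 : Real.log (1 + q) ≤ Real.log (2 * q) :=
          Real.log_le_log (by linarith) (by linarith)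
        rw [Real.log_mul two_ne_zero hTx.ne'] at h4
        have := le_max_right 0 (Real.log q)
        linarith
    have h5 : max 0 (Real.log q) ≤ L / i := by
      refine max_le (by positivity) ?_
      rw [le_div_iff₀ hi0']
      linarith
    rw [div_le_iff₀ hi]
    have h6 : (Real.log 2 * L⁻¹ + (i : ℝ)⁻¹) * L = Real.log 2 + L / i := by
      field_simp
    rw [h6]
    linarith

theorem adm_sub {T x y : ℕ → ℕ} (h : Adm T x y) {φ : ℕ → ℕ} (hφ : StrictMono φ) :
    Adm (fun i => T (φ i)) (fun i => x (φ i)) (fun i => y (φ i)) :=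
  ⟨h.1.comp hφ.tendsto_atTop, fun j => h.2.1 (φ j), h.2.2.1.comp hφ.tendsto_atTop,
    h.2.2.2.comp hφ.tendsto_atTop⟩

open Classical in
theorem pf_LAM (hCP : T_CP) (hUM : T_UM) (hCBC : T_CBC) : T_LAM := by
  intro k m r a b cc j W z hk hW hInd ρ hρ
  obtain ⟨D, w, v, hI1, hI2⟩ := hInd
  set A : Fin r → Finset (Fin k) → Fin (k + 1 + m) → ℤ := fun i => cf (k := k) (b i) with hA
  have hcard : Even (Fintype.card (Finset (Fin k))) := by
    rw [Fintype.card_finset, Fintype.card_fin]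
    exact (even_two).pow_of_ne_zero (by omega)
  have hIA : IndA A a j D (Fin.append (Fin.cons w 0 : Fin (k + 1) → ℤ) v)
      ((D : ℤ) * a j + w + ∑ l, v l * b j l) := by
    refine ⟨hI2, fun i hi s => ?_, fun s => ?_⟩
    · rw [hA, lf_cf, ← add_assoc]
      exact hI1 i hi
    · rw [hA, lf_cf, ← add_assoc]
  have hDir : Dir A (Fin.append (Fin.cons 1 0 : Fin (k + 1) → ℤ) 0) := by
    intro i s
    rw [hA, lf_cf]
    simp
  obtain ⟨K0, hK0⟩ := hCP (k + 1 + m) r (Finset (Fin k)) A a cc j W z _ _ D _ hcard hW hIA hDir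
  set κ : ℝ := ρ / (2 * 3 ^ k) with hκ
  have hκ0 : 0 < κ := by positivity
  refine ⟨K0 / κ ^ 2, ?_⟩
  by_contra hcon
  push Not at hcon
  obtain ⟨P, hP⟩ := hcon
  choose T x y hRg hbig using hP
  have hAdm := adm hRg
  set ff : ℕ → (Fin (k + 1 + m) → ℤ) → ℝ := fun p => Fp A (fun i => a i + cc i * (p : ℤ)) W z
    with hff
  have hff1 : ∀ p ω, |ff p ω| ≤ 1 := fun p ω => abs_Fp_le _ _ _ _ _
  have hffb : ∀ p, Bdd (ff p) := fun p => bdd_Fp _ _ _ _
  set E : ℕ → Finset ℕ := fun i => (primesLE P).filter (fun p =>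
    ρ * Real.log (T i) ^ m * Real.log ((y i : ℝ) / x i) < |ak k m (T i) (x i) (y i) (ff p)|)
    with hE
  have hEbig : ∀ i, K0 / κ ^ 2 < ∑ p ∈ E i, (1 / (p : ℝ)) := fun i => hbig i
  obtain ⟨E₀, φ, hφ, hE₀⟩ := pigeon (primesLE P) E (fun i => Finset.filter_subset _ _)
  obtain ⟨E₁, ψ, hψ, hE₁⟩ := pigeon (primesLE P)
    (fun i => (primesLE P).filter (fun p => 0 < ak k m (T (φ i)) (x (φ i)) (y (φ i)) (ff p)))
    (fun i => Finset.filter_subset _ _)
  have hAdm' := adm_sub (adm_sub hAdm hφ) hψ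
  obtain ⟨M, hDil, hGz, hM⟩ := hUM k m _ _ _ hk hAdm'
  have hsub : E₀ ⊆ primesLE P := by
    rw [← hE₀ 0]
    exact Finset.filter_subset _ _
  have hnorm := norm_le (m := m) hAdm'.1 hAdm'.2.1 hAdm'.2.2.1
  have hp : ∀ p ∈ E₀, κ ^ 2 ≤ (M.E (ff p)) ^ 2 := by
    intro p hp
    have hev : ∀ᶠ i in atTop, κ * ak k m (T (φ (ψ i))) (x (φ (ψ i))) (y (φ (ψ i)))
        (fun _ => 1) < |ak k m (T (φ (ψ i))) (x (φ (ψ i))) (y (φ (ψ i))) (ff p)| ∧
        0 < ak k m (T (φ (ψ i))) (x (φ (ψ i))) (y (φ (ψ i))) (fun _ => 1) := by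
      filter_upwards [hnorm] with i hi
      have h3 : p ∈ E (φ (ψ i)) := by rw [hE₀ (ψ i)]; exact hp
      have h4 := (Finset.mem_filter.1 h3).2
      have h5 := ak_one_le hCBC k m (T (φ (ψ i))) (x (φ (ψ i))) (y (φ (ψ i)))
        (hAdm'.2.1 i)
      have h6 := ak_abs k m (T (φ (ψ i))) (x (φ (ψ i))) (y (φ (ψ i))) (hff1 p)
      have h7 : 0 < ρ * Real.log (T (φ (ψ i))) ^ m *
          Real.log ((y (φ (ψ i)) : ℝ) / x (φ (ψ i))) := by
        rw [mul_assoc]
        exact mul_pos hρ hi.1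
      refine ⟨?_, h7.trans (h4.trans_le h6)⟩
      refine lt_of_le_of_lt ?_ h4
      calc κ * ak k m (T (φ (ψ i))) (x (φ (ψ i))) (y (φ (ψ i))) (fun _ => 1)
          ≤ κ * (3 ^ k * (2 * (Real.log (T (φ (ψ i))) ^ m *
            Real.log ((y (φ (ψ i)) : ℝ) / x (φ (ψ i)))))) := by
            refine mul_le_mul_of_nonneg_left (h5.trans ?_) hκ0.le
            exact mul_le_mul_of_nonneg_left hi.2 (by positivity)
        _ = ρ * Real.log (T (φ (ψ i))) ^ m *
            Real.log ((y (φ (ψ i)) : ℝ) / x (φ (ψ i))) := by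
            rw [hκ]
            field_simp
    by_cases hpos : p ∈ E₁
    · have h8 : κ ≤ M.E (ff p) := by
        refine hM _ _ (hffb p) ?_
        filter_upwards [hev] with i hi
        have h9 : p ∈ (primesLE P).filter (fun p =>
            0 < ak k m (T (φ (ψ i))) (x (φ (ψ i))) (y (φ (ψ i))) (ff p)) := by
          rw [hE₁ i]; exact hpos
        have h10 := (Finset.mem_filter.1 h9).2
        rw [abs_of_pos h10] at hi
        unfold av
        rw [le_div_iff₀ hi.2]
        exact hi.1.le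
      exact pow_le_pow_left₀ hκ0.le h8 2
    · have h8 : κ ≤ M.E (fun ω => - ff p ω) := by
        refine hM _ _ (bdd_neg (hffb p)) ?_
        filter_upwards [hev] with i hi
        have h10 : ak k m (T (φ (ψ i))) (x (φ (ψ i))) (y (φ (ψ i))) (ff p) ≤ 0 := by
          by_contra h11
          apply hpos
          rw [← hE₁ i]
          exact Finset.mem_filter.2 ⟨hsub hp, not_le.1 h11⟩
        rw [abs_of_nonpos h10] at hi
        unfold av
        rw [le_div_iff₀ hi.2, ak_neg]
        exact hi.1.le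
      rw [M.E_neg (hffb p)] at h8
      rw [← neg_sq (M.E (ff p))]
      exact pow_le_pow_left₀ hκ0.le h8 2
  have hfin := hK0 P M hDil (hGz (b j))
  have h4 : κ ^ 2 * ∑ p ∈ E₀, (1 / (p : ℝ)) ≤ K0 := by
    refine le_trans ?_ hfin
    rw [Finset.mul_sum]
    refine (Finset.sum_le_sum fun p hpE => ?_).trans
      (Finset.sum_le_sum_of_subset_of_nonneg hsub fun p _ _ => by positivity)
    rw [mul_comm]
    exact mul_le_mul_of_nonneg_left (hp p hpE) (by positivity)
  have h5 := hEbig (φ 0)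
  rw [hE₀ 0, div_lt_iff₀ (by positivity)] at h5
  linarith

end Pool.Agent.H39.UF
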